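import Mathlib
import Pool.Agent.Work.MP_27b024_lc.Six.Hard

open Pool.Agent.Work.MP_27b024_lc Pool.Agent.Work.MP_27b024_lc.Six

/-- For every fixed `k ≥ 6`, `k`-COLOURING is NP-complete on graphs with no hole of length at
least 5 and no induced path on 8 vertices: it is in NP, and every language in NP reduces to it by
a polynomial-time map all of whose values are codes of graphs of the class. -/
theorem Pool.Agent.Results.MP_27b024_lc.SixColoursNPC.result (k : ℕ) (hk : 6 ≤ k) :
    kColouring k ∈ N68a2faeb.NP ∧
    ∀ L ∈ N68a2faeb.NP, ∃ f : List Bool → List Bool, N68a2faeb.IsPolyTime f ∧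
      ∀ x : List Bool, ∃ (n : ℕ) (G : SimpleGraph (Fin n)),
        f x = encode G ∧ LongHoleFree G ∧ P8Free G ∧ (L x = true ↔ G.Colorable k) :=
  ⟨kColouring_mem_NP k, hard6 k hk⟩
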